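import Pool.Agent.R41.Tern

/-!
# MP_936e79_co: there is no constant `c` with `bgc(G) ≤ c · BGC(G)` for all graphs `G`
-/

set_option autoImplicit false

namespace Pool.Agent.Results.MP_936e79_co.NoConstant

open SimpleGraph

/-- A simple cycle of length `n ≥ 3` of `G`, as a cyclic sequence `f 0, f 1, …, f (n-1)` of
distinct vertices, consecutive ones (cyclically) being adjacent. -/
def IsSimpleCycle {V : Type} (G : SimpleGraph V) (n : ℕ) (f : ZMod n → V) : Prop :=
  3 ≤ n ∧ Function.Injective f ∧ ∀ i, G.Adj (f i) (f (i + 1))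

/-- The distance `d_C` along the cycle between the vertices with positions `i` and `j`. -/
def cycDist {n : ℕ} (i j : ZMod n) : ℕ := min (i - j).val (j - i).val

/-- The cycle is `μ`-locally geodesic: `d_G(x,y) = d_C(x,y) = ℓ` implies `ℓ ≤ μ`. -/
def LocallyGeodesic {V : Type} (G : SimpleGraph V) {n : ℕ} (f : ZMod n → V) (μ : ℕ) : Prop :=
  ∀ i j, G.dist (f i) (f j) = cycDist i j → cycDist i j ≤ μ

/-- The vertices at positions `i`, `j` form a `k`-bridge: `d_G ≤ k < d_C`. -/
def IsBridge {V : Type} (G : SimpleGraph V) {n : ℕ} (f : ZMod n → V) (k : ℕ) (i j : ZMod n) :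
    Prop :=
  G.dist (f i) (f j) ≤ k ∧ k < cycDist i j

/-- `S` (a set of positions) is a side of non-`μ`-locality: an arc `i, i + 1, …, i + (μ + 1)` of
length `μ + 1` whose ends satisfy `d_G = d_C = μ + 1`. -/
def IsSide {V : Type} (G : SimpleGraph V) {n : ℕ} (f : ZMod n → V) (μ : ℕ) (S : Set (ZMod n)) :
    Prop :=
  ∃ i : ZMod n, cycDist i (i + ((μ + 1 : ℕ) : ZMod n)) = μ + 1 ∧
    G.dist (f i) (f (i + ((μ + 1 : ℕ) : ZMod n))) = μ + 1 ∧
    S = {s | ∃ t : ℕ, t ≤ μ + 1 ∧ s = i + (t : ZMod n)}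

/-- The property defining `bgc`. -/
def BgcProp {V : Type} (G : SimpleGraph V) (μ : ℕ) : Prop :=
  ∀ (n : ℕ) (f : ZMod n → V), IsSimpleCycle G n f → ¬ LocallyGeodesic G f μ →
    ∀ S, IsSide G f μ S → ∃ v ∈ S, ∃ z, z ∉ S ∧ IsBridge G f ((μ + 1) / 2) v z

/-- The property defining `BGC`. -/
def BGCProp {V : Type} (G : SimpleGraph V) (μ : ℕ) : Prop :=
  ∀ (n : ℕ) (f : ZMod n → V), IsSimpleCycle G n f → ¬ LocallyGeodesic G f μ →
    ∃ v z, IsBridge G f ((μ + 1) / 2) v z

/-- `bgc(G)`: the least `μ ≥ 1` with `BgcProp G μ`. -/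
noncomputable def bgc {V : Type} (G : SimpleGraph V) : ℕ := sInf {μ | 1 ≤ μ ∧ BgcProp G μ}

/-- `BGC(G)`: the least `μ ≥ 1` with `BGCProp G μ`. -/
noncomputable def BGC {V : Type} (G : SimpleGraph V) : ℕ := sInf {μ | 1 ≤ μ ∧ BGCProp G μ}

lemma cycDist_le_card {V : Type} [Finite V] {G : SimpleGraph V} {n : ℕ} {f : ZMod n → V}
    (hf : IsSimpleCycle G n f) (i j : ZMod n) : 2 * cycDist i j ≤ n ∧ n ≤ Nat.card V := by
  have hn := hf.1
  have : NeZero n := ⟨by omega⟩
  constructor
  · unfold cycDist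
    by_cases hij : i - j = 0
    · rw [hij]
      simp
    · have h1 : j - i = -(i - j) := by ring
      have : NeZero (i - j) := ⟨hij⟩
      rw [h1, ZMod.val_neg_of_ne_zero]
      have := (i - j).val_lt
      omega
  · have := Nat.card_le_card_of_injective f hf.2.1
    rwa [Nat.card_zmod] at this

/-- the set in the definition of `bgc` is nonempty for finite graphs -/
lemma bgc_mem {V : Type} [Finite V] (G : SimpleGraph V) : 1 ≤ bgc G ∧ BgcProp G (bgc G) := by
  have : (Nat.card V + 1) ∈ {μ | 1 ≤ μ ∧ BgcProp G μ} := by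
    refine ⟨by omega, fun n f hf hnl => absurd ?_ hnl⟩
    intro i j _
    have := cycDist_le_card hf i j
    omega
  exact Nat.sInf_mem ⟨_, this⟩

open Pool.Agent.R41.Tern in
lemma BGC_le (h : ℕ) : BGC (TG h) ≤ 9 := by
  refine Nat.sInf_le ⟨by omega, fun n f hf hnl => ?_⟩
  have hn20 : 20 ≤ n := by
    unfold LocallyGeodesic at hnl
    push Not at hnl
    obtain ⟨i, j, -, h2⟩ := hnl
    have := (cycDist_le_card hf i j).1
    omega
  have : NeZero n := ⟨by omega⟩
  obtain ⟨s, hs⟩ := exists_shortcut (by omega) f hf.2.1 hf.2.2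
  refine ⟨s, s + 6, hs, ?_⟩
  unfold cycDist
  have h6 : ((6 : ℕ) : ZMod n).val = 6 := ZMod.val_natCast_of_lt (by omega)
  have e1 : s + 6 - s = ((6 : ℕ) : ZMod n) := by push_cast; ring
  have e2 : s - (s + 6) = -((6 : ℕ) : ZMod n) := by push_cast; ring
  have hne : ((6 : ℕ) : ZMod n) ≠ 0 := by
    intro h0
    rw [h0, ZMod.val_zero] at h6
    omega
  have : NeZero ((6 : ℕ) : ZMod n) := ⟨hne⟩
  rw [e1, e2, ZMod.val_neg_of_ne_zero, h6]
  omega

section lower

open Pool.Agent.R41.Tern

/-- length of the outer cycle -/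
def len (h : ℕ) : ℕ := 2 * h + 3 ^ h - 1

/-- coordinates of the outer cycle: down the left side, along the bottom, up the right side -/
def oc (h p : ℕ) : ℕ × ℕ :=
  if p ≤ h then (p, 0) else if p ≤ h + 3 ^ h - 1 then (h, p - h)
    else (len h - p, 3 ^ (len h - p) - 1)

lemma pow_pos' (m : ℕ) : 1 ≤ 3 ^ m := Nat.one_le_pow _ _ (by norm_num)

lemma oc_mem {h p : ℕ} (hp : p < len h) : (oc h p).1 ≤ h ∧ (oc h p).2 < 3 ^ (oc h p).1 := by
  unfold oc
  unfold len at *
  have h3 := pow_pos' h
  split_ifs with h1 h2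
  · exact ⟨h1, pow_pos' p⟩
  · exact ⟨le_rfl, by simp only; omega⟩
  · have := pow_pos' (2 * h + 3 ^ h - 1 - p)
    exact ⟨by simp only; omega, by simp only; omega⟩

/-- the outer cycle -/
def outer (h : ℕ) [NeZero (len h)] (i : ZMod (len h)) : VT h := ⟨oc h i.val, oc_mem (ZMod.val_lt i)⟩

lemma oc_left {h p : ℕ} (hp : p ≤ h) : oc h p = (p, 0) := by unfold oc; rw [if_pos hp]

lemma oc_bot {h p : ℕ} (hp : ¬ p ≤ h) (hp2 : p ≤ h + 3 ^ h - 1) : oc h p = (h, p - h) := by
  unfold oc; rw [if_neg hp, if_pos hp2]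

lemma oc_right {h p : ℕ} (hp : ¬ p ≤ h) (hp2 : ¬ p ≤ h + 3 ^ h - 1) :
    oc h p = (len h - p, 3 ^ (len h - p) - 1) := by
  unfold oc; rw [if_neg hp, if_neg hp2]

lemma three_pow_ge {m : ℕ} (hm : 1 ≤ m) : 3 ≤ 3 ^ m := by
  calc 3 = 3 ^ 1 := by norm_num
    _ ≤ 3 ^ m := Nat.pow_le_pow_right (by norm_num) hm

lemma oc_inj {h p q : ℕ} (hh : 1 ≤ h) (hp : p < len h) (hq : q < len h) (hpq : oc h p = oc h q) :
    p = q := by
  have hlen : len h = 2 * h + 3 ^ h - 1 := rfl
  have h3 := three_pow_ge hh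
  by_cases p1 : p ≤ h
  · by_cases q1 : q ≤ h
    · rw [oc_left p1, oc_left q1] at hpq
      exact (Prod.ext_iff.1 hpq).1
    · by_cases q2 : q ≤ h + 3 ^ h - 1
      · rw [oc_left p1, oc_bot q1 q2] at hpq
        have := (Prod.ext_iff.1 hpq).2
        simp only at this
        omega
      · rw [oc_left p1, oc_right q1 q2] at hpq
        have := (Prod.ext_iff.1 hpq).2
        simp only at this
        have := three_pow_ge (m := len h - q) (by omega)
        omega
  · by_cases p2 : p ≤ h + 3 ^ h - 1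
    · by_cases q1 : q ≤ h
      · rw [oc_left q1, oc_bot p1 p2] at hpq
        have := (Prod.ext_iff.1 hpq).2
        simp only at this
        omega
      · by_cases q2 : q ≤ h + 3 ^ h - 1
        · rw [oc_bot p1 p2, oc_bot q1 q2] at hpq
          have := (Prod.ext_iff.1 hpq).2
          simp only at this
          omega
        · rw [oc_bot p1 p2, oc_right q1 q2] at hpq
          have := (Prod.ext_iff.1 hpq).1
          simp only at this
          omega
    · by_cases q1 : q ≤ h
      · rw [oc_left q1, oc_right p1 p2] at hpq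
        have := (Prod.ext_iff.1 hpq).2
        simp only at this
        have := three_pow_ge (m := len h - p) (by omega)
        omega
      · by_cases q2 : q ≤ h + 3 ^ h - 1
        · rw [oc_right p1 p2, oc_bot q1 q2] at hpq
          have := (Prod.ext_iff.1 hpq).1
          simp only at this
          omega
        · rw [oc_right p1 p2, oc_right q1 q2] at hpq
          have := (Prod.ext_iff.1 hpq).1
          simp only at this
          omega

lemma right_step {m : ℕ} (hm : 1 ≤ m) : (3 ^ m - 1) / 3 = 3 ^ (m - 1) - 1 := by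
  obtain ⟨m', rfl⟩ : ∃ m', m = m' + 1 := ⟨m - 1, by omega⟩
  have := pow_pos' m'
  rw [pow_succ, Nat.add_sub_cancel]
  omega

lemma oc_adj {h p : ℕ} (hh : 1 ≤ h) (hp : p + 1 < len h) : tadj (oc h p) (oc h (p + 1)) := by
  have hlen : len h = 2 * h + 3 ^ h - 1 := rfl
  have h3 := three_pow_ge hh
  by_cases p1 : p + 1 ≤ h
  · rw [oc_left (by omega), oc_left p1]
    right; left
    exact ⟨rfl, by simp⟩
  · by_cases p2 : p + 1 ≤ h + 3 ^ h - 1
    · rw [oc_bot p1 p2]
      by_cases p3 : p ≤ h
      · rw [oc_left p3]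
        left
        exact ⟨by simp only; omega, Or.inl (by simp only; omega)⟩
      · rw [oc_bot p3 (by omega)]
        left
        exact ⟨rfl, Or.inl (by simp only; omega)⟩
    · rw [oc_right p1 p2]
      by_cases p3 : p ≤ h + 3 ^ h - 1
      · rw [oc_bot (by omega) p3]
        right; right
        have e : p - h = 3 ^ h - 1 := by omega
        refine ⟨by simp only; omega, ?_⟩
        simp only
        rw [e, right_step hh, show len h - (p + 1) = h - 1 by omega]
      · rw [oc_right (by omega) p3]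
        right; right
        refine ⟨by simp only; omega, ?_⟩
        simp only
        rw [right_step (by omega), show len h - (p + 1) = len h - p - 1 by omega]

lemma outer_cycle {h : ℕ} (hh2 : 2 ≤ h) [NeZero (len h)] :
    IsSimpleCycle (TG h) (len h) (outer h) := by
  have hh : 1 ≤ h := by omega
  have hlen : len h = 2 * h + 3 ^ h - 1 := rfl
  have h3 := three_pow_ge hh
  refine ⟨by omega, ?_, ?_⟩
  · intro i j hij
    have h1 := congrArg Subtype.val hij
    exact ZMod.val_injective _ (oc_inj hh (ZMod.val_lt i) (ZMod.val_lt j) h1)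
  · intro i
    rw [TG_adj]
    unfold outer
    simp only
    by_cases hi : i.val + 1 < len h
    · have : (i + 1).val = i.val + 1 := by
        rw [ZMod.val_add, ZMod.val_one'' (by omega), Nat.mod_eq_of_lt hi]
      rw [this]
      exact oc_adj hh hi
    · have h4 := ZMod.val_lt i
      have : (i + 1).val = 0 := by
        rw [ZMod.val_add, ZMod.val_one'' (by omega), show i.val + 1 = len h by omega,
          Nat.mod_self]
      rw [this, oc_left (Nat.zero_le _)]
      rw [oc_right (h := h) (p := i.val) (by omega) (by omega),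
        show len h - i.val = 1 by omega]
      right; right
      simp

lemma cycDist_le {n : ℕ} [NeZero n] (x y : ZMod n) (d : ℕ) (h1 : x.val ≤ y.val + d)
    (h2 : y.val ≤ x.val + d) : cycDist x y ≤ d := by
  unfold cycDist
  rcases le_total x.val y.val with h | h
  · rw [ZMod.val_sub h]
    omega
  · rw [ZMod.val_sub h]
    omega

/-- `BgcProp` fails for all small `μ` -/
lemma not_bgcProp {h μ : ℕ} (hμ : 1 ≤ μ) (hh : 3 * μ + 10 ≤ h) : ¬ BgcProp (TG h) μ := by
  intro hP
  have hlen : len h = 2 * h + 3 ^ h - 1 := rfl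
  have h3 := three_pow_ge (m := h) (by omega)
  have : NeZero (len h) := ⟨by omega⟩
  set k := (μ + 1) / 2 with hk
  have hk1 : 1 ≤ k := by omega
  have hvala : ∀ t : ℕ, t ≤ μ + 1 →
      (((2 * k : ℕ) : ZMod (len h)) + ((t : ℕ) : ZMod (len h))).val = 2 * k + t := by
    intro t ht
    rw [← Nat.cast_add]
    exact ZMod.val_natCast_of_lt (by omega)
  have hcyc := outer_cycle (h := h) (by omega)
  -- the side
  have hoc : ∀ t : ℕ, t ≤ μ + 1 →
      (outer h (((2 * k : ℕ) : ZMod (len h)) + ((t : ℕ) : ZMod (len h)))).1 = (2 * k + t, 0) := by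
    intro t ht
    unfold outer
    simp only
    rw [hvala t ht, oc_left (by omega)]
  have hdistS : ∀ t : ℕ, t ≤ μ + 1 →
      (TG h).dist (outer h ((2 * k : ℕ) : ZMod (len h)))
        (outer h (((2 * k : ℕ) : ZMod (len h)) + ((t : ℕ) : ZMod (len h)))) ≤ t := by
    intro t
    induction t with
    | zero => intro _; simp
    | succ t ih =>
      intro ht
      have h1 := ih (by omega)
      have h2 := hcyc.2.2 (((2 * k : ℕ) : ZMod (len h)) + ((t : ℕ) : ZMod (len h)))
      rw [show ((2 * k : ℕ) : ZMod (len h)) + ((t : ℕ) : ZMod (len h)) + 1 =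
        ((2 * k : ℕ) : ZMod (len h)) + ((t + 1 : ℕ) : ZMod (len h)) by push_cast; ring] at h2
      have h4 := SimpleGraph.dist_eq_one_iff_adj.2 h2
      have h5 := (TG_connected h).dist_triangle
        (u := outer h ((2 * k : ℕ) : ZMod (len h)))
        (v := outer h (((2 * k : ℕ) : ZMod (len h)) + ((t : ℕ) : ZMod (len h))))
        (w := outer h (((2 * k : ℕ) : ZMod (len h)) + ((t + 1 : ℕ) : ZMod (len h))))
      omega
  have hoc0 := hoc 0 (by omega)
  rw [Nat.cast_zero, add_zero] at hoc0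
  have hdist : (TG h).dist (outer h ((2 * k : ℕ) : ZMod (len h)))
      (outer h (((2 * k : ℕ) : ZMod (len h)) + ((μ + 1 : ℕ) : ZMod (len h)))) = μ + 1 := by
    apply le_antisymm (hdistS _ le_rfl)
    have h1 := (level_dist (outer h ((2 * k : ℕ) : ZMod (len h)))
      (outer h (((2 * k : ℕ) : ZMod (len h)) + ((μ + 1 : ℕ) : ZMod (len h))))).2
    rw [hoc _ le_rfl, hoc0] at h1
    simp only at h1
    omega
  have hcd : cycDist ((2 * k : ℕ) : ZMod (len h))
      (((2 * k : ℕ) : ZMod (len h)) + ((μ + 1 : ℕ) : ZMod (len h))) = μ + 1 := by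
    unfold cycDist
    have hv : ((μ + 1 : ℕ) : ZMod (len h)).val = μ + 1 := ZMod.val_natCast_of_lt (by omega)
    have hne : ((μ + 1 : ℕ) : ZMod (len h)) ≠ 0 := by
      intro h0
      rw [h0, ZMod.val_zero] at hv
      omega
    have : NeZero ((μ + 1 : ℕ) : ZMod (len h)) := ⟨hne⟩
    rw [add_sub_cancel_left, sub_add_cancel_left, ZMod.val_neg_of_ne_zero, hv]
    omega
  have hnl : ¬ LocallyGeodesic (TG h) (outer h) μ := by
    intro hl
    have := hl _ _ (hdist.trans hcd.symm)
    omega
  obtain ⟨v, ⟨t, ht, rfl⟩, z, hz, hb1, hb2⟩ := hP _ _ hcyc hnl _ ⟨_, hcd, hdist, rfl⟩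
  rw [← hk] at hb1 hb2
  have hvt := hoc t ht
  have hlev := level_dist (outer h (((2 * k : ℕ) : ZMod (len h)) + ((t : ℕ) : ZMod (len h))))
    (outer h z)
  rw [hvt] at hlev
  simp only at hlev
  have hzlt := ZMod.val_lt z
  by_cases p1 : z.val ≤ h
  · have hz1 : (outer h z).1 = (z.val, 0) := oc_left p1
    rw [hz1] at hlev
    simp only at hlev
    have := cycDist_le (((2 * k : ℕ) : ZMod (len h)) + ((t : ℕ) : ZMod (len h))) z k
      (by rw [hvala t ht]; omega) (by rw [hvala t ht]; omega)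
    omega
  · by_cases p2 : z.val ≤ h + 3 ^ h - 1
    · have hz1 : (outer h z).1 = (h, z.val - h) := oc_bot p1 p2
      rw [hz1] at hlev
      simp only at hlev
      omega
    · have hz1 : (outer h z).1 = (len h - z.val, 3 ^ (len h - z.val) - 1) := oc_right p1 p2
      obtain ⟨w, hw⟩ := (TG_connected h).exists_walk_length_eq_dist
        (outer h (((2 * k : ℕ) : ZMod (len h)) + ((t : ℕ) : ZMod (len h)))) (outer h z)
      have h1 := anc_walk w k (by rw [hvt]; simp only; omega)
      rw [hvt, hz1, hw] at h1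
      rw [hz1] at hlev
      simp only at hlev
      simp only [Nat.zero_div] at h1
      have hq : k ≤ len h - z.val := by omega
      have h2 : 3 ^ (len h - z.val) = 3 ^ k * 3 ^ (len h - z.val - k) := by
        rw [← pow_add]
        congr 1
        omega
      have h4 : (3 ^ (len h - z.val) - 1) / 3 ^ (len h - z.val - k) = 3 ^ k - 1 := by
        rw [h2]
        have hp1 := pow_pos' k
        have hp2 := pow_pos' (len h - z.val - k)
        obtain ⟨x, hx⟩ : ∃ x, 3 ^ k = x + 1 := ⟨3 ^ k - 1, by omega⟩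
        rw [hx, Nat.add_sub_cancel]
        apply Nat.div_eq_of_lt_le
        · rw [add_mul, one_mul]; omega
        · rw [Nat.succ_mul]
          omega
      rw [h4] at h1
      have h5 : k + 1 < 3 ^ k := by
        have := one_add_mul_le_pow (show (-2 : ℤ) ≤ 2 by norm_num) k
        have h6 : (1 + (k : ℤ) * 2) ≤ ((3 ^ k : ℕ) : ℤ) := by
          push_cast
          norm_num at this
          exact this
        omega
      omega

end lower

/-- **Main result.** For every `c` there is a finite connected graph `G` with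
`bgc(G) > c · BGC(G)`; in particular no absolute constant `c` satisfies
`bgc(G) ≤ c · BGC(G)` for every graph `G`. -/
theorem result :
    (∀ c : ℕ, ∃ (V : Type) (_ : Finite V) (G : SimpleGraph V), G.Connected ∧
      c * BGC G < bgc G) ∧
    ¬ ∃ c : ℝ, ∀ (V : Type) (_ : Finite V) (G : SimpleGraph V), G.Connected →
      (bgc G : ℝ) ≤ c * (BGC G : ℝ) := by
  have main : ∀ c : ℕ, ∃ (V : Type) (_ : Finite V) (G : SimpleGraph V), G.Connected ∧
      c * BGC G < bgc G := by
    intro c
    refine ⟨_, inferInstance, Pool.Agent.R41.Tern.TG (3 * (9 * c) + 10),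
      Pool.Agent.R41.Tern.TG_connected _, ?_⟩
    have h1 := BGC_le (3 * (9 * c) + 10)
    obtain ⟨h2, h3⟩ := bgc_mem (Pool.Agent.R41.Tern.TG (3 * (9 * c) + 10))
    by_contra hcon
    push Not at hcon
    have h4 : bgc (Pool.Agent.R41.Tern.TG (3 * (9 * c) + 10)) ≤ c * 9 :=
      hcon.trans (Nat.mul_le_mul_left c h1)
    exact not_bgcProp h2 (by omega) h3
  refine ⟨main, ?_⟩
  rintro ⟨c, hc⟩
  obtain ⟨m, hm⟩ := exists_nat_ge c
  obtain ⟨V, hV, G, hG, hlt⟩ := main m
  have h1 := hc V hV G hG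
  have h2 : (c : ℝ) * (BGC G : ℝ) ≤ (m : ℝ) * (BGC G : ℝ) :=
    mul_le_mul_of_nonneg_right hm (Nat.cast_nonneg _)
  have h3 : ((m * BGC G : ℕ) : ℝ) < (bgc G : ℝ) := by exact_mod_cast hlt
  push_cast at h3
  linarith

end Pool.Agent.Results.MP_936e79_co.NoConstant
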